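import Pool.Agent.J4H67.SL.Ratio
import Pool.Agent.J4H67.SL.Mean

/-!
Transfer of asymptotic laws from sparse sets of lengths, for a general exponent `q` of smoothness.
-/

set_option autoImplicit false

namespace Pool.Agent.J4H67.SH

open Filter Topology Finset
open Pool.Agent.J4H67.SL (dd Smooth Meets window mem_window inter_zero interlaced core_zero core_rate
  smooth_log exp_neg_two_le ratio_of_log log_of_ratio gain all_of_bigO)

/-- the general form, for `L = log (c_n / μ^n)` -/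
theorem inter_phi {q : ℝ} (hq : q ≤ 1) {L : ℕ → ℝ} (hL : ∀ κ : ℝ, κ < q → Smooth κ L) {ε : ℝ} (hε : 0 < ε)
    (hε' : ε ≤ q) {S S' : Set ℕ} (hS : Meets S (q - ε)) (hS' : Meets S' (q - ε))
    {κ : ℝ} (hκ : q - ε < κ) {φ : ℕ → ℝ} (hφ : Smooth κ φ) :
    ((∀ δ : ℝ, 0 < δ → ∀ᶠ n : ℕ in atTop ⊓ 𝓟 S, L n ≤ φ n + δ) →
      (∀ δ : ℝ, 0 < δ → ∀ᶠ n : ℕ in atTop ⊓ 𝓟 S', φ n - δ ≤ L n) →
      Tendsto (fun n => L n - φ n) atTop (𝓝 0)) ∧
    ∀ D : ℝ, 0 ≤ D →
      (∃ C : ℝ, ∀ᶠ n : ℕ in atTop ⊓ 𝓟 S, L n ≤ φ n + C * (n : ℝ) ^ (-D)) →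
      (∃ C : ℝ, ∀ᶠ n : ℕ in atTop ⊓ 𝓟 S', φ n - C * (n : ℝ) ^ (-D) ≤ L n) →
      (fun n => L n - φ n) =O[atTop] fun n : ℕ => (n : ℝ) ^ (-D) := by
  set κ' : ℝ := min κ (q - ε / 2) with hκ'
  have h1 : q - ε < κ' := lt_min hκ (by linarith)
  have h2 : κ' < q := (min_le_right _ _).trans_lt (by linarith)
  have hH : Smooth κ' (fun n => L n - φ n) := (hL κ' h2).sub (hφ.mono (min_le_left _ _))
  refine ⟨fun hu hl => inter_zero (by linarith) h1 hH hS hS' (fun δ hδ => ?_) (fun δ hδ => ?_),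
    fun D hD hu hl => interlaced (by linarith) (by linarith) h1 hH hS hS' hD ?_ ?_⟩
  · exact (hu δ hδ).mono fun n hn => by linarith
  · exact (hl δ hδ).mono fun n hn => by linarith
  · exact hu.imp fun C hC => hC.mono fun n hn => by linarith
  · exact hl.imp fun C hC => hC.mono fun n hn => by linarith

/-- power laws -/
theorem inter_pow {q : ℝ} (hq : q ≤ 1) {u : ℕ → ℝ} (hu : ∀ n, 0 < u n)
    (hL : ∀ κ : ℝ, κ < q → Smooth κ (fun n => Real.log (u n))) {ε : ℝ} (hε : 0 < ε)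
    (hε' : ε ≤ q) {S S' : Set ℕ} (hS : Meets S (q - ε)) (hS' : Meets S' (q - ε))
    {A : ℝ} (hA : 0 < A) (g : ℝ) :
    ((∀ δ : ℝ, 0 < δ → ∀ᶠ n : ℕ in atTop ⊓ 𝓟 S, u n ≤ (1 + δ) * (A * (n : ℝ) ^ g)) →
      (∀ δ : ℝ, 0 < δ → ∀ᶠ n : ℕ in atTop ⊓ 𝓟 S', (1 - δ) * (A * (n : ℝ) ^ g) ≤ u n) →
      Tendsto (fun n : ℕ => u n / (A * (n : ℝ) ^ g)) atTop (𝓝 1)) ∧
    ∀ D : ℝ, 0 < D →
      (∃ C : ℝ, ∀ᶠ n : ℕ in atTop ⊓ 𝓟 S, u n ≤ (1 + C * (n : ℝ) ^ (-D)) * (A * (n : ℝ) ^ g)) →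
      (∃ C : ℝ, ∀ᶠ n : ℕ in atTop ⊓ 𝓟 S', (1 - C * (n : ℝ) ^ (-D)) * (A * (n : ℝ) ^ g) ≤ u n) →
      (fun n : ℕ => u n / (A * (n : ℝ) ^ g) - 1) =O[atTop] fun n : ℕ => (n : ℝ) ^ (-D) := by
  have hT := inter_phi hq hL hε hε' hS hS' (show q - ε < 1 by linarith)
    (smooth_log (Real.log A) g)
  have hpos : ∀ᶠ n : ℕ in atTop, 0 < u n / (A * (n : ℝ) ^ g) := by
    filter_upwards [eventually_ge_atTop 1] with n hn
    have : (0 : ℝ) < n := by exact_mod_cast hn
    have := hu n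
    positivity
  have hlog : ∀ᶠ n : ℕ in atTop, Real.log (u n / (A * (n : ℝ) ^ g)) =
      Real.log (u n) - (Real.log A + g * Real.log n) := by
    filter_upwards [eventually_ge_atTop 1] with n hn
    have hn0 : (0 : ℝ) < n := by exact_mod_cast hn
    rw [Real.log_div (hu n).ne' (by positivity), Real.log_mul hA.ne' (by positivity),
      Real.log_rpow hn0]
  have hle : ∀ S : Set ℕ, (atTop ⊓ 𝓟 S : Filter ℕ) ≤ atTop := fun S => inf_le_left
  -- upper bounds
  have hupper : ∀ (S : Set ℕ) (x : ℕ → ℝ),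
      (∀ᶠ n : ℕ in atTop ⊓ 𝓟 S, u n ≤ (1 + x n) * (A * (n : ℝ) ^ g)) →
      ∀ᶠ n : ℕ in atTop ⊓ 𝓟 S, Real.log (u n) ≤ (Real.log A + g * Real.log n) + x n := by
    intro S x h
    filter_upwards [h, hlog.filter_mono (hle S), hpos.filter_mono (hle S),
      (eventually_ge_atTop 1).filter_mono (hle S)] with n h1 h2 h3 hn
    have hn0 : (0 : ℝ) < n := by exact_mod_cast hn
    have h4 : u n / (A * (n : ℝ) ^ g) ≤ 1 + x n := by
      rw [div_le_iff₀ (by positivity)]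
      exact h1
    have h5 : Real.log (u n / (A * (n : ℝ) ^ g)) ≤ x n := by
      have := Real.log_le_sub_one_of_pos h3
      linarith
    linarith
  refine ⟨fun h1 h2 => ?_, fun D hD h1 h2 => ?_⟩
  · have h3 := hT.1 (fun δ hδ => hupper S (fun _ => δ) (h1 δ hδ)) (fun δ hδ => by
      have h5 := h2 (1 - Real.exp (-δ)) (by
        have : Real.exp (-δ) < 1 := by
          rw [Real.exp_lt_one_iff]
          linarith
        linarith)
      filter_upwards [h5, hlog.filter_mono (hle S'), hpos.filter_mono (hle S'),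
        (eventually_ge_atTop 1).filter_mono (hle S')] with n h6 h7 h8 hn
      have hn0 : (0 : ℝ) < n := by exact_mod_cast hn
      have h9 : Real.exp (-δ) ≤ u n / (A * (n : ℝ) ^ g) := by
        rw [le_div_iff₀ (by positivity)]
        linarith
      have h10 : -δ ≤ Real.log (u n / (A * (n : ℝ) ^ g)) := by
        rw [Real.le_log_iff_exp_le h8]
        exact h9
      linarith)
    have h4 : Tendsto (fun n : ℕ => Real.log (u n / (A * (n : ℝ) ^ g))) atTop (𝓝 0) :=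
      h3.congr' (hlog.mono fun n hn => hn.symm)
    have h5 := (Real.continuous_exp.tendsto 0).comp h4
    rw [Real.exp_zero] at h5
    refine h5.congr' ?_
    filter_upwards [hpos] with n hn
    simp only [Function.comp]
    exact Real.exp_log hn
  · have hv : Tendsto (fun n : ℕ => (n : ℝ) ^ (-D)) atTop (𝓝 0) :=
      (tendsto_rpow_neg_atTop hD).comp (tendsto_natCast_atTop_atTop (R := ℝ))
    obtain ⟨C₁, hC₁⟩ := h1
    obtain ⟨C₂, hC₂⟩ := h2
    have hsm : ∀ᶠ n : ℕ in atTop, |C₂| * (n : ℝ) ^ (-D) ≤ 1 / 2 := by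
      have h3 := hv.const_mul |C₂|
      rw [mul_zero] at h3
      exact (h3.eventually (gt_mem_nhds (show (0 : ℝ) < 1 / 2 by norm_num))).mono fun n hn => hn.le
    have h3 := hT.2 D hD.le ⟨C₁, hupper S _ hC₁⟩ ⟨2 * |C₂|, by
      filter_upwards [hC₂, hlog.filter_mono (hle S'), hpos.filter_mono (hle S'),
        (eventually_ge_atTop 1).filter_mono (hle S'), hsm.filter_mono (hle S')] with n h6 h7 h8 hn h9
      have hn0 : (0 : ℝ) < n := by exact_mod_cast hn
      have h10 : 1 - |C₂| * (n : ℝ) ^ (-D) ≤ u n / (A * (n : ℝ) ^ g) := by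
        rw [le_div_iff₀ (by positivity)]
        refine le_trans ?_ h6
        refine mul_le_mul_of_nonneg_right ?_ (by positivity)
        have : C₂ * (n : ℝ) ^ (-D) ≤ |C₂| * (n : ℝ) ^ (-D) :=
          mul_le_mul_of_nonneg_right (le_abs_self _) (by positivity)
        linarith
      have h11 := (exp_neg_two_le (by positivity) h9).trans h10
      have h12 : -(2 * (|C₂| * (n : ℝ) ^ (-D))) ≤ Real.log (u n / (A * (n : ℝ) ^ g)) := by
        rw [Real.le_log_iff_exp_le h8]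
        exact h11
      linarith⟩
    have h4 := h3.congr' (hlog.mono fun n hn => hn.symm) (EventuallyEq.refl _ _)
    exact ratio_of_log hpos hv h4

/-- the general transfer -/
theorem transfer {q : ℝ} (hq : q ≤ 1) {L : ℕ → ℝ} (hL : ∀ κ : ℝ, κ < q → Smooth κ L) {ε : ℝ} (hε : 0 < ε)
    (hε' : ε ≤ q) {S : Set ℕ} (hS : Meets S (q - ε)) {κ : ℝ} (hκ : q - ε < κ)
    {φ : ℕ → ℝ} (hφ : Smooth κ φ) :
    (Tendsto (fun n => L n - φ n) (atTop ⊓ 𝓟 S) (𝓝 0) →
      Tendsto (fun n => L n - φ n) atTop (𝓝 0)) ∧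
    ∀ D : ℝ, 0 ≤ D → ((fun n => L n - φ n) =O[atTop ⊓ 𝓟 S] fun n : ℕ => (n : ℝ) ^ (-D)) →
      ((fun n => L n - φ n) =O[atTop] fun n : ℕ => (n : ℝ) ^ (-D)) := by
  set κ' : ℝ := min κ (q - ε / 2) with hκ'
  have h1 : q - ε < κ' := lt_min hκ (by linarith)
  have h2 : κ' < q := (min_le_right _ _).trans_lt (by linarith)
  have hH : Smooth κ' (fun n => L n - φ n) := (hL κ' h2).sub (hφ.mono (min_le_left _ _))
  exact ⟨fun h => core_zero (by linarith) (by linarith) h1 hH hS h,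
    fun D hD h => core_rate (by linarith) (by linarith) h1 hH hS hD h⟩

theorem diff_gain {q : ℝ} (hq : q ≤ 1) {L : ℕ → ℝ} (hL : ∀ κ : ℝ, κ < q → Smooth κ L) {ε : ℝ} (hε : 0 < ε)
    (hε' : ε ≤ q) {S : Set ℕ} (hS : Meets S (q - ε)) {φ : ℕ → ℝ}
    (hφ : Smooth q φ) {D : ℝ} (hD : 0 ≤ D)
    (h : (fun n => L n - φ n) =O[atTop ⊓ 𝓟 S] fun n : ℕ => (n : ℝ) ^ (-D)) (j : ℕ) {δ : ℝ}
    (hδ : 0 < δ) :
    (fun n => dd j (fun m => L m - φ m) n) =O[atTop] fun n : ℕ => (n : ℝ) ^ (-D - j * q + δ) := by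
  have hT := (transfer hq hL hε hε' hS (show q - ε < q by linarith) hφ).2 D hD h
  set η : ℝ := min (q / 2) (δ / (j + 1)) with hη
  have hη0 : 0 < η := lt_min (by linarith) (by positivity)
  have hη1 : η ≤ q / 2 := min_le_left _ _
  have hj : (j : ℝ) * η ≤ δ := by
    have h1 : η ≤ δ / (j + 1) := min_le_right _ _
    rw [le_div_iff₀ (by positivity)] at h1
    nlinarith
  have hH : Smooth (q - η / 2) (fun n => L n - φ n) :=
    (hL _ (by linarith)).sub (hφ.mono (by linarith))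
  obtain ⟨C, hC⟩ := gain (κ' := q - η) (by linarith) (by linarith) j _ D hD hH (all_of_bigO hT)
  refine Asymptotics.IsBigO.of_bound |C| ?_
  filter_upwards [eventually_ge_atTop 1] with n hn
  have hn1 : (1 : ℝ) ≤ n := by exact_mod_cast hn
  rw [Real.norm_eq_abs, Real.norm_of_nonneg (by positivity)]
  calc |dd j (fun m => L m - φ m) n| ≤ C * (n : ℝ) ^ (-(D + j * (q - η))) := hC n hn
    _ ≤ |C| * (n : ℝ) ^ (-(D + j * (q - η))) :=
        mul_le_mul_of_nonneg_right (le_abs_self C) (by positivity)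
    _ ≤ |C| * (n : ℝ) ^ (-D - j * q + δ) := by
      refine mul_le_mul_of_nonneg_left (Real.rpow_le_rpow_of_exponent_le hn1 ?_) (abs_nonneg C)
      have e : (j : ℝ) * (q - η) = j * q - j * η := by ring
      linarith

theorem ratio_lim {q : ℝ} (hq : q ≤ 1) {u : ℕ → ℝ} (hu : ∀ n, 0 < u n)
    (hL : ∀ κ : ℝ, κ < q → Smooth κ (fun n => Real.log (u n))) {ε : ℝ} (hε : 0 < ε)
    (hε' : ε ≤ q) {S : Set ℕ} (hS : Meets S (q - ε)) {A : ℝ} (hA : 0 < A) (g : ℝ) {D : ℝ}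
    (hD : 1 - q < D)
    (h : (fun n : ℕ => u n / (A * (n : ℝ) ^ g) - 1) =O[atTop ⊓ 𝓟 S] fun n : ℕ => (n : ℝ) ^ (-D)) :
    Tendsto (fun n : ℕ => (n : ℝ) * (u (n + 2) / u n - 1)) atTop (𝓝 (2 * g)) := by
  have hle : (atTop ⊓ 𝓟 S : Filter ℕ) ≤ atTop := inf_le_left
  have hv : Tendsto (fun n : ℕ => (n : ℝ) ^ (-D)) atTop (𝓝 0) :=
    (tendsto_rpow_neg_atTop (by linarith)).comp (tendsto_natCast_atTop_atTop (R := ℝ))
  have hlog : ∀ᶠ n : ℕ in atTop, Real.log (u n / (A * (n : ℝ) ^ g)) =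
      Real.log (u n) - (Real.log A + g * Real.log n) := by
    filter_upwards [eventually_ge_atTop 1] with n hn
    have hn0 : (0 : ℝ) < n := by exact_mod_cast hn
    rw [Real.log_div (hu n).ne' (by positivity), Real.log_mul hA.ne' (by positivity),
      Real.log_rpow hn0]
  have h1 := (log_of_ratio (hv.mono_left hle) h).congr' (hlog.filter_mono hle) (EventuallyEq.refl _ _)
  have h2 := diff_gain hq hL hε hε' hS ((smooth_log (Real.log A) g).mono hq)
    (by linarith) h1 1 (δ := (D - (1 - q)) / 2) (by linarith)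
  -- n times the difference tends to zero
  have h3 : Tendsto (fun n : ℕ => (n : ℝ) *
      dd 1 (fun m => Real.log (u m) - (Real.log A + g * Real.log m)) n) atTop (𝓝 0) := by
    have h4 : (fun n : ℕ => (n : ℝ) *
        dd 1 (fun m => Real.log (u m) - (Real.log A + g * Real.log m)) n) =O[atTop]
        fun n : ℕ => (n : ℝ) ^ (-((D - (1 - q)) / 2)) := by
      refine ((Asymptotics.isBigO_refl (fun n : ℕ => (n : ℝ)) atTop).mul h2).trans ?_
      refine Asymptotics.IsBigO.of_bound 1 ?_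
      filter_upwards [eventually_ge_atTop 1] with n hn
      have hn0 : (0 : ℝ) < n := by exact_mod_cast hn
      rw [Real.norm_of_nonneg (by positivity), Real.norm_of_nonneg (by positivity), one_mul]
      refine le_of_eq ?_
      conv_lhs => rw [show (n : ℝ) = (n : ℝ) ^ (1 : ℝ) by rw [Real.rpow_one]]
      rw [Real.rpow_one, ← Real.rpow_one_add' hn0.le]
      · congr 1
        push_cast
        ring
      · push_cast
        intro h0
        linarith
    exact h4.trans_tendsto ((tendsto_rpow_neg_atTop (show 0 < (D - (1 - q)) / 2 by linarith)).comp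
      (tendsto_natCast_atTop_atTop (R := ℝ)))
  have h5 : Tendsto (fun n : ℕ => g * ((n : ℝ) * Real.log (1 + 2 / (n : ℝ)))) atTop (𝓝 (g * 2)) :=
    ((Real.tendsto_mul_log_one_add_div_atTop 2).comp
      (tendsto_natCast_atTop_atTop (R := ℝ))).const_mul g
  have h6 : Tendsto (fun n : ℕ => (n : ℝ) * (Real.log (u (n + 2)) - Real.log (u n))) atTop
      (𝓝 (2 * g)) := by
    have h7 := h5.sub h3
    rw [sub_zero, mul_comm g 2] at h7
    refine h7.congr' ?_
    filter_upwards [eventually_ge_atTop 1] with n hn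
    have hn0 : (0 : ℝ) < n := by exact_mod_cast hn
    have e1 : Real.log (1 + 2 / (n : ℝ)) = Real.log ((n + 2 : ℕ) : ℝ) - Real.log n := by
      rw [← Real.log_div (by positivity) (by positivity)]
      congr 1
      push_cast
      field_simp
    rw [e1]
    simp only [dd, sum_range_succ, sum_range_zero]
    norm_num
    ring
  have h8 : Tendsto (fun n : ℕ => Real.log (u (n + 2)) - Real.log (u n)) atTop (𝓝 0) := by
    have h9 : Tendsto (fun n : ℕ => ((n : ℝ))⁻¹) atTop (𝓝 0) :=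
      tendsto_inv_atTop_zero.comp (tendsto_natCast_atTop_atTop (R := ℝ))
    have h10 := h9.mul h6
    rw [zero_mul] at h10
    refine h10.congr' ?_
    filter_upwards [eventually_ge_atTop 1] with n hn
    have hn0 : (n : ℝ) ≠ 0 := by
      have : (0 : ℝ) < n := by exact_mod_cast hn
      exact this.ne'
    rw [← mul_assoc, inv_mul_cancel₀ hn0, one_mul]
  have h11 : Tendsto (fun n : ℕ => (n : ℝ) * (Real.log (u (n + 2)) - Real.log (u n)) *
      (Real.log (u (n + 2)) - Real.log (u n))) atTop (𝓝 0) := by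
    have := h6.mul h8
    rwa [mul_zero] at this
  have h12 : Tendsto (fun n : ℕ => (n : ℝ) * (u (n + 2) / u n - 1) -
      (n : ℝ) * (Real.log (u (n + 2)) - Real.log (u n))) atTop (𝓝 0) := by
    refine squeeze_zero_norm' ?_ h11
    have h13 : ∀ᶠ n : ℕ in atTop, |Real.log (u (n + 2)) - Real.log (u n)| < 1 := by
      have := (Metric.tendsto_nhds.1 h8) 1 one_pos
      simpa [Real.dist_eq] using this
    filter_upwards [h13] with n hn
    have e1 : u (n + 2) / u n = Real.exp (Real.log (u (n + 2)) - Real.log (u n)) := by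
      rw [Real.exp_sub, Real.exp_log (hu _), Real.exp_log (hu _)]
    have h14 := Real.abs_exp_sub_one_sub_id_le hn.le
    rw [e1, ← mul_sub, Real.norm_eq_abs, abs_mul, Nat.abs_cast]
    calc (n : ℝ) * |Real.exp (Real.log (u (n + 2)) - Real.log (u n)) - 1 -
          (Real.log (u (n + 2)) - Real.log (u n))|
        ≤ (n : ℝ) * (Real.log (u (n + 2)) - Real.log (u n)) ^ 2 :=
          mul_le_mul_of_nonneg_left h14 (Nat.cast_nonneg n)
      _ = _ := by ring
  have h15 := h12.add h6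
  rw [zero_add] at h15
  refine h15.congr fun n => ?_
  ring

theorem mean_meets {u : ℕ → ℝ} {ρ : ℝ} (hρ : ρ ≤ 1) {A : ℝ} (hA : 0 < A) (g : ℝ)
    {w : ℕ → ℕ → ℝ} (hw : ∀ n m, 0 ≤ w n m)
    (hw1 : ∀ n, ∑ m ∈ window ρ n, w n m = 1) {D : ℝ} (hD : 0 < D)
    (h : (fun n : ℕ => ∑ m ∈ window ρ n, w n m * (u m / (A * (m : ℝ) ^ g)) - 1) =O[atTop]
      fun n : ℕ => (n : ℝ) ^ (-D)) :
    ∃ C : ℝ, Meets {m : ℕ | u m ≤ (1 + C * (m : ℝ) ^ (-D)) * (A * (m : ℝ) ^ g)} ρ ∧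
      Meets {m : ℕ | (1 - C * (m : ℝ) ^ (-D)) * (A * (m : ℝ) ^ g) ≤ u m} ρ := by
  obtain ⟨C, hC⟩ := h.bound
  have hwpos : ∀ n, ∃ m ∈ window ρ n, 0 < w n m := by
    intro n
    obtain ⟨m, hm, hm'⟩ := Finset.exists_ne_zero_of_sum_ne_zero
      (show ∑ m ∈ window ρ n, w n m ≠ 0 by rw [hw1]; exact one_ne_zero)
    exact ⟨m, hm, lt_of_le_of_ne (hw n m) hm'.symm⟩
  have hcomp : ∀ n : ℕ, 1 ≤ n → ∀ m ∈ window ρ n,
      |C| * (n : ℝ) ^ (-D) ≤ |C| * 2 ^ D * (m : ℝ) ^ (-D) := by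
    intro n hn m hm
    obtain ⟨h1, h2, -⟩ := mem_window hm
    have hn1 : (1 : ℝ) ≤ n := by exact_mod_cast hn
    have hn0 : (0 : ℝ) < n := by linarith
    have hm0 : (0 : ℝ) < m := by exact_mod_cast (by omega : 0 < m)
    have h3 : (n : ℝ) ^ ρ ≤ n := by
      conv_rhs => rw [← Real.rpow_one (n : ℝ)]
      exact Real.rpow_le_rpow_of_exponent_le hn1 (by linarith)
    have h4 : (m : ℝ) ≤ 2 * n := by linarith
    have h5 : (2 * (n : ℝ)) ^ (-D) ≤ (m : ℝ) ^ (-D) :=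
      Real.rpow_le_rpow_of_nonpos hm0 h4 (by linarith)
    have h6 : (n : ℝ) ^ (-D) = 2 ^ D * (2 * (n : ℝ)) ^ (-D) := by
      rw [Real.mul_rpow (by norm_num) hn0.le, ← mul_assoc, ← Real.rpow_add (by norm_num)]
      simp
    rw [h6, mul_assoc]
    exact mul_le_mul_of_nonneg_left (mul_le_mul_of_nonneg_left h5 (by positivity)) (abs_nonneg C)
  have hpos : ∀ m : ℕ, 1 ≤ m → 0 < A * (m : ℝ) ^ g := fun m hm => by
    have : (0 : ℝ) < m := by exact_mod_cast hm
    positivity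
  have hup : Meets {m : ℕ | u m ≤ (1 + |C| * 2 ^ D * (m : ℝ) ^ (-D)) * (A * (m : ℝ) ^ g)}
      ρ := by
    filter_upwards [hC, eventually_ge_atTop 1] with n hn hn1
    rw [Real.norm_eq_abs, Real.norm_of_nonneg (by positivity)] at hn
    by_contra hcon
    push Not at hcon
    have hgt : ∀ m ∈ window ρ n, 1 + |C| * (n : ℝ) ^ (-D) < u m / (A * (m : ℝ) ^ g) := by
      intro m hm
      obtain ⟨h1, h2, h3⟩ := mem_window hm
      have hmS : m ∉ {m : ℕ | u m ≤ (1 + |C| * 2 ^ D * (m : ℝ) ^ (-D)) * (A * (m : ℝ) ^ g)} :=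
        fun hmem => hcon m hmem h1 h2 h3
      rw [Set.mem_setOf_eq, not_le] at hmS
      rw [lt_div_iff₀ (hpos m (by omega))]
      refine lt_of_le_of_lt ?_ hmS
      exact mul_le_mul_of_nonneg_right (by linarith [hcomp n hn1 m hm]) (hpos m (by omega)).le
    have hlt : ∑ m ∈ window ρ n, w n m * (1 + |C| * (n : ℝ) ^ (-D)) <
        ∑ m ∈ window ρ n, w n m * (u m / (A * (m : ℝ) ^ g)) := by
      obtain ⟨m, hm, hm'⟩ := hwpos n
      exact Finset.sum_lt_sum (fun i hi => mul_le_mul_of_nonneg_left (hgt i hi).le (hw n i))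
        ⟨m, hm, mul_lt_mul_of_pos_left (hgt m hm) hm'⟩
    rw [← Finset.sum_mul, hw1, one_mul] at hlt
    have h1 := (le_abs_self _).trans hn
    have h2 : C * (n : ℝ) ^ (-D) ≤ |C| * (n : ℝ) ^ (-D) :=
      mul_le_mul_of_nonneg_right (le_abs_self C) (by positivity)
    linarith
  have hlo : Meets {m : ℕ | (1 - |C| * 2 ^ D * (m : ℝ) ^ (-D)) * (A * (m : ℝ) ^ g) ≤ u m}
      ρ := by
    filter_upwards [hC, eventually_ge_atTop 1] with n hn hn1
    rw [Real.norm_eq_abs, Real.norm_of_nonneg (by positivity)] at hn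
    by_contra hcon
    push Not at hcon
    have hgt : ∀ m ∈ window ρ n, u m / (A * (m : ℝ) ^ g) < 1 - |C| * (n : ℝ) ^ (-D) := by
      intro m hm
      obtain ⟨h1, h2, h3⟩ := mem_window hm
      have hmS : m ∉ {m : ℕ | (1 - |C| * 2 ^ D * (m : ℝ) ^ (-D)) * (A * (m : ℝ) ^ g) ≤ u m} :=
        fun hmem => hcon m hmem h1 h2 h3
      rw [Set.mem_setOf_eq, not_le] at hmS
      rw [div_lt_iff₀ (hpos m (by omega))]
      refine lt_of_lt_of_le hmS ?_
      exact mul_le_mul_of_nonneg_right (by linarith [hcomp n hn1 m hm]) (hpos m (by omega)).le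
    have hlt : ∑ m ∈ window ρ n, w n m * (u m / (A * (m : ℝ) ^ g)) <
        ∑ m ∈ window ρ n, w n m * (1 - |C| * (n : ℝ) ^ (-D)) := by
      obtain ⟨m, hm, hm'⟩ := hwpos n
      exact Finset.sum_lt_sum (fun i hi => mul_le_mul_of_nonneg_left (hgt i hi).le (hw n i))
        ⟨m, hm, mul_lt_mul_of_pos_left (hgt m hm) hm'⟩
    rw [← Finset.sum_mul, hw1, one_mul] at hlt
    have h1 := (neg_abs_le _).trans_lt' (show -(C * (n : ℝ) ^ (-D)) - 1 <
      -|∑ m ∈ window ρ n, w n m * (u m / (A * (m : ℝ) ^ g)) - 1| by linarith)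
    have h3 := neg_abs_le (∑ m ∈ window ρ n, w n m * (u m / (A * (m : ℝ) ^ g)) - 1)
    have h2 : C * (n : ℝ) ^ (-D) ≤ |C| * (n : ℝ) ^ (-D) :=
      mul_le_mul_of_nonneg_right (le_abs_self C) (by positivity)
    linarith
  exact ⟨|C| * 2 ^ D, hup, hlo⟩

end Pool.Agent.J4H67.SH
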