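import Pool.Agent.J4H67.SH.Growth
import Pool.Agent.J4H67.SH.Gen

/-!
Self-avoiding walks on `ℤ³`: bounds along sparse sets of lengths, windows up to `n^(1/2)`.
-/

set_option autoImplicit false

namespace Pool.Agent.J4H67.SH

open Filter Topology Finset
open Pool.Agent.J4H67.SL (dd Smooth Meets window)

theorem rpow_add_le {b b' : ℝ} (C : ℝ) (hb : b < b') (hb' : 0 < b') :
    ∀ᶠ n : ℕ in atTop, (n : ℝ) ^ b + C ≤ (n : ℝ) ^ b' := by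
  have h1 : Tendsto (fun n : ℕ => (n : ℝ) ^ (b' - b)) atTop atTop :=
    (tendsto_rpow_atTop (by linarith)).comp (tendsto_natCast_atTop_atTop (R := ℝ))
  have h2 : Tendsto (fun n : ℕ => (n : ℝ) ^ b') atTop atTop :=
    (tendsto_rpow_atTop hb').comp (tendsto_natCast_atTop_atTop (R := ℝ))
  filter_upwards [h1.eventually_ge_atTop 2, h2.eventually_ge_atTop (2 * C),
    eventually_ge_atTop 1] with n h3 h4 hn
  have hn0 : (0 : ℝ) < n := by exact_mod_cast hn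
  have h5 : 2 * (n : ℝ) ^ b ≤ (n : ℝ) ^ b' :=
    calc 2 * (n : ℝ) ^ b ≤ (n : ℝ) ^ (b' - b) * (n : ℝ) ^ b :=
          mul_le_mul_of_nonneg_right h3 (by positivity)
      _ = (n : ℝ) ^ b' := by
        rw [← Real.rpow_add hn0]
        congr 1
        ring
  linarith

theorem growth_third {b' : ℝ} (h : 1 / 3 < b') : ∀ᶠ n : ℕ in atTop, LL n ≤ (n : ℝ) ^ b' := by
  obtain ⟨K, hK⟩ := Pool.Agent.W325.S3.c_third ((b' - 1 / 3) / 2) (by linarith)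
  have h1 : Tendsto (fun n : ℕ => (n : ℝ) ^ ((b' - 1 / 3) / 2)) atTop atTop :=
    (tendsto_rpow_atTop (by linarith)).comp (tendsto_natCast_atTop_atTop (R := ℝ))
  filter_upwards [h1.eventually_ge_atTop K, eventually_ge_atTop 1] with n h3 hn
  have hn0 : (0 : ℝ) < n := by exact_mod_cast hn
  have h2 : (Pool.Agent.H46R2.K3.c n : ℝ) / Pool.Agent.H46R2.K3.mu ^ n ≤
      Real.exp (K * (n : ℝ) ^ (1 / 3 + (b' - 1 / 3) / 2 : ℝ)) := by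
    rw [div_le_iff₀ (pow_pos mu_pos n), mul_comm]
    exact hK n
  have h4 : LL n ≤ K * (n : ℝ) ^ (1 / 3 + (b' - 1 / 3) / 2 : ℝ) := by
    unfold LL
    rw [Real.log_le_iff_le_exp (div_pos (c_pos n) (pow_pos mu_pos n))]
    exact h2
  calc LL n ≤ K * (n : ℝ) ^ (1 / 3 + (b' - 1 / 3) / 2 : ℝ) := h4
    _ ≤ (n : ℝ) ^ ((b' - 1 / 3) / 2) * (n : ℝ) ^ (1 / 3 + (b' - 1 / 3) / 2 : ℝ) :=
      mul_le_mul_of_nonneg_right h3 (by positivity)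
    _ = (n : ℝ) ^ b' := by
      rw [← Real.rpow_add hn0]
      congr 1
      ring

/-- smoothness from growth along `S` (no condition if `b = 1/3`) -/
theorem smooth_LL {b ε : ℝ} (hb : 0 ≤ b) (hb1 : b ≤ 1 / 3) (hε : 0 ≤ ε) {S : Set ℕ}
    (hS : Meets S ((1 - b) / 2 - ε))
    (h : b = 1 / 3 ∨ ∀ b' : ℝ, b < b' → ∀ᶠ n : ℕ in atTop ⊓ 𝓟 S, LL n ≤ (n : ℝ) ^ b') :
    ∀ κ : ℝ, κ < (1 - b) / 2 → Smooth κ LL := by
  intro κ hκ
  refine smooth_sparse hb (by linarith) hε hS ?_ hκ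
  rcases h with rfl | h
  · exact fun b' hb' => (growth_third hb').filter_mono inf_le_left
  · exact h

/-- upper bound at all lengths from growth along `S` -/
theorem growth_all {b ε : ℝ} (hb : 0 ≤ b) (hb1 : b ≤ 1 / 3) (hε : 0 ≤ ε) {S : Set ℕ}
    (hS : Meets S ((1 - b) / 2 - ε))
    (h : b = 1 / 3 ∨ ∀ b' : ℝ, b < b' → ∀ᶠ n : ℕ in atTop ⊓ 𝓟 S, LL n ≤ (n : ℝ) ^ b') :
    ∀ b' : ℝ, b < b' → ∀ᶠ n : ℕ in atTop, LL n ≤ (n : ℝ) ^ b' := by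
  rcases h with rfl | h
  · exact fun b' hb' => growth_third hb'
  intro b' hb'
  have h1 : Tendsto (fun k : ℕ => (1 / 2 - b) * (1 / 2 : ℝ) ^ k) atTop (𝓝 ((1 / 2 - b) * 0)) :=
    (tendsto_pow_atTop_nhds_zero_of_lt_one (by norm_num) (by norm_num)).const_mul _
  rw [mul_zero] at h1
  obtain ⟨k, hk⟩ := (h1.eventually (gt_mem_nhds (show 0 < (b' - b) / 2 by linarith))).exists
  have e : (1 / 2 - b) * (1 / 2 : ℝ) ^ k = (1 / 2 - b) / 2 ^ k := by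
    rw [one_div, inv_pow]
    ring
  rw [e] at hk
  obtain ⟨K, hK⟩ := boot hb (by linarith) hε hS h k
  have h2 : Tendsto (fun n : ℕ => (n : ℝ) ^ ((b' - b) / 2)) atTop atTop :=
    (tendsto_rpow_atTop (by linarith)).comp (tendsto_natCast_atTop_atTop (R := ℝ))
  filter_upwards [h2.eventually_ge_atTop |K|, eventually_ge_atTop 1] with n h3 hn
  have hn0 : (0 : ℝ) < n := by exact_mod_cast hn
  have hn1 : (1 : ℝ) ≤ n := by exact_mod_cast hn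
  calc LL n ≤ K * (n : ℝ) ^ (b + (1 / 2 - b) / 2 ^ k) := hK n hn
    _ ≤ |K| * (n : ℝ) ^ (b + (1 / 2 - b) / 2 ^ k) :=
      mul_le_mul_of_nonneg_right (le_abs_self K) (by positivity)
    _ ≤ (n : ℝ) ^ ((b' - b) / 2) * (n : ℝ) ^ (b + (b' - b) / 2) :=
      mul_le_mul h3 (Real.rpow_le_rpow_of_exponent_le hn1 (by linarith)) (by positivity)
        (by positivity)
    _ = (n : ℝ) ^ b' := by
      rw [← Real.rpow_add hn0]
      congr 1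
      ring

theorem growth_of_phi {b : ℝ} (hb : 0 ≤ b) {S : Set ℕ} {φ : ℕ → ℝ} {C : ℝ}
    (hg : b = 1 / 3 ∨ ∀ b' : ℝ, b < b' → ∀ᶠ n : ℕ in atTop ⊓ 𝓟 S, φ n ≤ (n : ℝ) ^ b')
    (h : ∀ᶠ n : ℕ in atTop ⊓ 𝓟 S, LL n ≤ φ n + C) :
    b = 1 / 3 ∨ ∀ b' : ℝ, b < b' → ∀ᶠ n : ℕ in atTop ⊓ 𝓟 S, LL n ≤ (n : ℝ) ^ b' := by
  refine hg.imp_right fun hg b' hb' => ?_
  filter_upwards [h, hg ((b + b') / 2) (by linarith),
    (rpow_add_le C (show (b + b') / 2 < b' by linarith) (by linarith)).filter_mono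
      (inf_le_left : (atTop ⊓ 𝓟 S : Filter ℕ) ≤ atTop)] with n h1 h2 h3
  linarith

/-- **general comparison sequences** -/
theorem inter_gen {b ε : ℝ} (hb : 0 ≤ b) (hb1 : b ≤ 1 / 3) (hε : 0 < ε) (hε' : ε ≤ (1 - b) / 2)
    {S S' : Set ℕ} (hS : Meets S ((1 - b) / 2 - ε)) (hS' : Meets S' ((1 - b) / 2 - ε)) {κ : ℝ}
    (hκ : (1 - b) / 2 - ε < κ) {φ : ℕ → ℝ} (hφ : Smooth κ φ)
    (hg : b = 1 / 3 ∨ ∀ b' : ℝ, b < b' → ∀ᶠ n : ℕ in atTop ⊓ 𝓟 S, φ n ≤ (n : ℝ) ^ b') :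
    ((∀ δ : ℝ, 0 < δ → ∀ᶠ n : ℕ in atTop ⊓ 𝓟 S, LL n ≤ φ n + δ) →
      (∀ δ : ℝ, 0 < δ → ∀ᶠ n : ℕ in atTop ⊓ 𝓟 S', φ n - δ ≤ LL n) →
      Tendsto (fun n => LL n - φ n) atTop (𝓝 0)) ∧
    ∀ D : ℝ, 0 ≤ D →
      (∃ C : ℝ, ∀ᶠ n : ℕ in atTop ⊓ 𝓟 S, LL n ≤ φ n + C * (n : ℝ) ^ (-D)) →
      (∃ C : ℝ, ∀ᶠ n : ℕ in atTop ⊓ 𝓟 S', φ n - C * (n : ℝ) ^ (-D) ≤ LL n) →
      (fun n => LL n - φ n) =O[atTop] fun n : ℕ => (n : ℝ) ^ (-D) := by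
  refine ⟨fun hu hl => ?_, fun D hD hu hl => ?_⟩
  · have hL := smooth_LL hb hb1 hε.le hS (growth_of_phi hb hg (hu 1 one_pos))
    exact (inter_phi (by linarith) hL hε hε' hS hS' hκ hφ).1 hu hl
  · obtain ⟨C, hC⟩ := hu
    have h1 : ∀ᶠ n : ℕ in atTop ⊓ 𝓟 S, LL n ≤ φ n + |C| := by
      filter_upwards [hC, (eventually_ge_atTop 1).filter_mono
        (inf_le_left : (atTop ⊓ 𝓟 S : Filter ℕ) ≤ atTop)] with n h1 hn
      have hn1 : (1 : ℝ) ≤ n := by exact_mod_cast hn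
      have h2 : (n : ℝ) ^ (-D) ≤ 1 := Real.rpow_le_one_of_one_le_of_nonpos hn1 (by linarith)
      have h3 : C * (n : ℝ) ^ (-D) ≤ |C| * 1 :=
        mul_le_mul (le_abs_self C) h2 (by positivity) (abs_nonneg C)
      linarith
    have hL := smooth_LL hb hb1 hε.le hS (growth_of_phi hb hg h1)
    exact (inter_phi (by linarith) hL hε hε' hS hS' hκ hφ).2 D hD ⟨C, hC⟩ hl

/-- `c_n / μ^n` -/
noncomputable def uu (n : ℕ) : ℝ := (Pool.Agent.H46R2.K3.c n : ℝ) / Pool.Agent.H46R2.K3.mu ^ n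

theorem uu_pos (n : ℕ) : 0 < uu n := div_pos (c_pos n) (pow_pos mu_pos n)

theorem growth_pow {A g C : ℝ} (hA : 0 < A) {S : Set ℕ}
    (h : ∀ᶠ n : ℕ in atTop ⊓ 𝓟 S, uu n ≤ C * (A * (n : ℝ) ^ g)) :
    ∀ b' : ℝ, 0 < b' → ∀ᶠ n : ℕ in atTop ⊓ 𝓟 S, LL n ≤ (n : ℝ) ^ b' := by
  intro b' hb'
  have hle : (atTop ⊓ 𝓟 S : Filter ℕ) ≤ atTop := inf_le_left
  have h1 : Tendsto (fun n : ℕ => (n : ℝ) ^ (b' / 2)) atTop atTop :=
    (tendsto_rpow_atTop (by linarith)).comp (tendsto_natCast_atTop_atTop (R := ℝ))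
  filter_upwards [h, (eventually_ge_atTop 1).filter_mono hle,
    (h1.eventually_ge_atTop (|g| * (1 / (b' / 2)))).filter_mono hle,
    (rpow_add_le (Real.log (C * A)) (show (0 : ℝ) < b' by linarith) hb').filter_mono hle,
    ((tendsto_rpow_atTop hb').comp
      (tendsto_natCast_atTop_atTop (R := ℝ))).eventually_ge_atTop
      (2 * Real.log (C * A)) |>.filter_mono hle,
    (h1.eventually_ge_atTop (2 * (|g| * (1 / (b' / 2))))).filter_mono hle] with n h2 hn h3 _ h4 h5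
  have hn0 : (0 : ℝ) < n := by exact_mod_cast hn
  have hn1 : (1 : ℝ) ≤ n := by exact_mod_cast hn
  have hp := uu_pos n
  have hCA : 0 < C * A := by
    have h6 : 0 < C * A * (n : ℝ) ^ g := by
      rw [mul_assoc]
      exact lt_of_lt_of_le hp h2
    exact (mul_pos_iff_of_pos_right (show 0 < (n : ℝ) ^ g by positivity)).1 h6
  have h6 : LL n ≤ Real.log (C * A) + g * Real.log n := by
    have h7 := Real.log_le_log hp h2
    rw [← mul_assoc, Real.log_mul hCA.ne' (by positivity), Real.log_rpow hn0] at h7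
    exact h7
  have hlog := Real.log_nonneg hn1
  have h8 : g * Real.log n ≤ |g| * (1 / (b' / 2)) * (n : ℝ) ^ (b' / 2) := by
    calc g * Real.log n ≤ |g| * Real.log n := mul_le_mul_of_nonneg_right (le_abs_self g) hlog
      _ ≤ |g| * ((n : ℝ) ^ (b' / 2) / (b' / 2)) :=
        mul_le_mul_of_nonneg_left (Real.log_le_rpow_div hn0.le (by linarith)) (abs_nonneg g)
      _ = _ := by ring
  have h9 : 2 * (|g| * (1 / (b' / 2)) * (n : ℝ) ^ (b' / 2)) ≤ (n : ℝ) ^ b' := by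
    calc 2 * (|g| * (1 / (b' / 2)) * (n : ℝ) ^ (b' / 2))
        = 2 * (|g| * (1 / (b' / 2))) * (n : ℝ) ^ (b' / 2) := by ring
      _ ≤ (n : ℝ) ^ (b' / 2) * (n : ℝ) ^ (b' / 2) := mul_le_mul_of_nonneg_right h5 (by positivity)
      _ = (n : ℝ) ^ b' := by
        rw [← Real.rpow_add hn0]
        congr 1
        ring
  simp only [Function.comp] at h4
  linarith

/-- **power laws** -/
theorem inter_power {ε : ℝ} (hε : 0 < ε) (hε' : ε ≤ 1 / 2) {S S' : Set ℕ}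
    (hS : Meets S (1 / 2 - ε)) (hS' : Meets S' (1 / 2 - ε)) {A : ℝ} (hA : 0 < A) (g : ℝ) :
    ((∀ δ : ℝ, 0 < δ → ∀ᶠ n : ℕ in atTop ⊓ 𝓟 S, uu n ≤ (1 + δ) * (A * (n : ℝ) ^ g)) →
      (∀ δ : ℝ, 0 < δ → ∀ᶠ n : ℕ in atTop ⊓ 𝓟 S', (1 - δ) * (A * (n : ℝ) ^ g) ≤ uu n) →
      Tendsto (fun n : ℕ => uu n / (A * (n : ℝ) ^ g)) atTop (𝓝 1)) ∧
    ∀ D : ℝ, 0 < D →
      (∃ C : ℝ, ∀ᶠ n : ℕ in atTop ⊓ 𝓟 S, uu n ≤ (1 + C * (n : ℝ) ^ (-D)) * (A * (n : ℝ) ^ g)) →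
      (∃ C : ℝ, ∀ᶠ n : ℕ in atTop ⊓ 𝓟 S', (1 - C * (n : ℝ) ^ (-D)) * (A * (n : ℝ) ^ g) ≤ uu n) →
      (fun n : ℕ => uu n / (A * (n : ℝ) ^ g) - 1) =O[atTop] fun n : ℕ => (n : ℝ) ^ (-D) := by
  have e : (1 - (0 : ℝ)) / 2 = 1 / 2 := by norm_num
  have hsm : ∀ C : ℝ, (∀ᶠ n : ℕ in atTop ⊓ 𝓟 S, uu n ≤ C * (A * (n : ℝ) ^ g)) →
      ∀ κ : ℝ, κ < 1 / 2 → Smooth κ (fun n => Real.log (uu n)) := by
    intro C hC κ hκ
    exact smooth_LL (b := 0) (ε := ε) le_rfl (by norm_num) hε.le (by rw [e]; exact hS)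
      (Or.inr (growth_pow hA hC)) κ (by rw [e]; exact hκ)
  refine ⟨fun hu hl => ?_, fun D hD hu hl => ?_⟩
  · exact (inter_pow (by norm_num) uu_pos (hsm _ (hu 1 one_pos)) hε hε' hS hS' hA g).1 hu hl
  · obtain ⟨C, hC⟩ := hu
    have h1 : ∀ᶠ n : ℕ in atTop ⊓ 𝓟 S, uu n ≤ (1 + |C|) * (A * (n : ℝ) ^ g) := by
      filter_upwards [hC, (eventually_ge_atTop 1).filter_mono
        (inf_le_left : (atTop ⊓ 𝓟 S : Filter ℕ) ≤ atTop)] with n h1 hn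
      have hn1 : (1 : ℝ) ≤ n := by exact_mod_cast hn
      have h2 : (n : ℝ) ^ (-D) ≤ 1 := Real.rpow_le_one_of_one_le_of_nonpos hn1 (by linarith)
      have h3 : C * (n : ℝ) ^ (-D) ≤ |C| * 1 :=
        mul_le_mul (le_abs_self C) h2 (by positivity) (abs_nonneg C)
      exact h1.trans (mul_le_mul_of_nonneg_right (by linarith) (by positivity))
    exact (inter_pow (by norm_num) uu_pos (hsm _ h1) hε hε' hS hS' hA g).2 D hD ⟨C, hC⟩ hl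

/-- **weighted means** -/
theorem inter_mean {ε : ℝ} (hε : 0 < ε) (hε' : ε ≤ 1 / 2) {A : ℝ} (hA : 0 < A) (g : ℝ)
    {w : ℕ → ℕ → ℝ} (hw : ∀ n m, 0 ≤ w n m)
    (hw1 : ∀ n, ∑ m ∈ window (1 / 2 - ε) n, w n m = 1) {D : ℝ} (hD : 0 < D)
    (h : (fun n : ℕ => ∑ m ∈ window (1 / 2 - ε) n, w n m * (uu m / (A * (m : ℝ) ^ g)) - 1) =O[atTop]
      fun n : ℕ => (n : ℝ) ^ (-D)) :
    (fun n : ℕ => uu n / (A * (n : ℝ) ^ g) - 1) =O[atTop] fun n : ℕ => (n : ℝ) ^ (-D) := by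
  obtain ⟨C, hup, hlo⟩ := mean_meets (by linarith) hA g hw hw1 hD h
  exact (inter_power hε hε' hup hlo hA g).2 D hD
    ⟨C, eventually_inf_principal.2 (Eventually.of_forall fun m hm => hm)⟩
    ⟨C, eventually_inf_principal.2 (Eventually.of_forall fun m hm => hm)⟩

end Pool.Agent.J4H67.SH
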