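import Pool.Agent.J4H67.SL.Inter2
import Pool.Agent.N929.EG.Three
import Pool.Agent.N546.EG.CNT3
import Pool.Agent.W325.S3.Fin

/-!
Self-avoiding walks on `ℤ³`: an upper bound `c_n ≤ μ^n exp(K n^a)` gives smoothness of exponent
`(1 - a) / 2`; an upper bound along a sparse set of lengths extends to all lengths.
-/

set_option autoImplicit false

namespace Pool.Agent.J4H67.SH

open Filter Topology Finset
open Pool.Agent.J4H67.SL (dd Smooth Meets)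

/-- `log (c_n / μ^n)` -/
noncomputable def LL (n : ℕ) : ℝ :=
  Real.log ((Pool.Agent.H46R2.K3.c n : ℝ) / Pool.Agent.H46R2.K3.mu ^ n)

theorem mu_pos : 0 < Pool.Agent.H46R2.K3.mu :=
  lt_of_lt_of_le one_pos Pool.Agent.H46R2.K3.P.one_le_mu

theorem c_pos (n : ℕ) : 0 < (Pool.Agent.H46R2.K3.c n : ℝ) :=
  lt_of_lt_of_le (pow_pos mu_pos n) (Pool.Agent.H46R2.K3.P.mu_pow_le n)

theorem c_le {n : ℕ} {x : ℝ} (h : LL n ≤ x) :
    (Pool.Agent.H46R2.K3.c n : ℝ) ≤ Pool.Agent.H46R2.K3.mu ^ n * Real.exp x := by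
  have h1 : 0 < (Pool.Agent.H46R2.K3.c n : ℝ) / Pool.Agent.H46R2.K3.mu ^ n :=
    div_pos (c_pos n) (pow_pos mu_pos n)
  have h2 := (Real.log_le_iff_le_exp h1).1 h
  rw [div_le_iff₀ (pow_pos mu_pos n)] at h2
  linarith

theorem smooth_of_growth {a : ℝ} (ha : 0 < a) (ha1 : a < 1) {K : ℝ}
    (h : ∀ n : ℕ, 1 ≤ n → LL n ≤ K * (n : ℝ) ^ a) : Smooth ((1 - a) / 2) LL := by
  obtain ⟨Y, H⟩ := Pool.Agent.N929.EG.sys3 Pool.Agent.N546.EG.cnt3
  obtain ⟨K0, K1, hK0, hK1, G⟩ := H.gr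
  obtain ⟨K2, hK2⟩ : ∃ K2 : ℝ, K2 = 4 + 2 * |K| + 1 / a := ⟨_, rfl⟩
  have ha' : 0 < 1 / a := by positivity
  have hK20 : 4 ≤ K2 := by rw [hK2]; linarith [abs_nonneg K]
  have hKK : 2 * |K| ≤ K2 := by rw [hK2]; linarith
  have hKa : 1 / a ≤ K2 := by rw [hK2]; linarith [abs_nonneg K]
  have h2a : (2 : ℝ) ^ a ≤ 2 := by
    conv_rhs => rw [← Real.rpow_one 2]
    exact Real.rpow_le_rpow_of_exponent_le (by norm_num) ha1.le
  have hdbl : ∀ n m : ℕ, m ≤ 2 * n → (m : ℝ) ^ a ≤ 2 * (n : ℝ) ^ a := by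
    intro n m hm
    calc (m : ℝ) ^ a ≤ (2 * (n : ℝ)) ^ a :=
          Real.rpow_le_rpow (Nat.cast_nonneg m) (by exact_mod_cast hm) ha.le
      _ = 2 ^ a * (n : ℝ) ^ a := Real.mul_rpow (by norm_num) (Nat.cast_nonneg n)
      _ ≤ 2 * (n : ℝ) ^ a := mul_le_mul_of_nonneg_right h2a (by positivity)
  have G' : Pool.Agent.N929.EG.Gr Y TH966.KO.μ (fun n : ℕ => K2 * (n : ℝ) ^ a) := by
    refine ⟨G.one, ⟨fun n hn => ?_, ⟨2, by norm_num, fun n m hn hm hm2 => ?_⟩, ?_⟩,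
      fun n m hn hm => ?_, G.pat⟩
    · have h1 := Real.log_le_rpow_div (Nat.cast_nonneg n) ha
      calc Real.log (n : ℝ) ≤ (n : ℝ) ^ a / a := h1
        _ = 1 / a * (n : ℝ) ^ a := by ring
        _ ≤ K2 * (n : ℝ) ^ a := mul_le_mul_of_nonneg_right hKa (by positivity)
    · have h1 := mul_le_mul_of_nonneg_left (hdbl n m hm2) (show 0 ≤ K2 by linarith)
      linarith
    · have h1 : Tendsto (fun n : ℕ => K2 * (n : ℝ) ^ (-(1 - a))) atTop (𝓝 0) := by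
        have := ((tendsto_rpow_neg_atTop (show 0 < 1 - a by linarith)).comp
          (tendsto_natCast_atTop_atTop (R := ℝ))).const_mul K2
        simpa using this
      refine h1.congr' ?_
      filter_upwards [eventually_ge_atTop 1] with n hn
      have hn0 : (0 : ℝ) < n := by exact_mod_cast hn
      rw [mul_div_assoc, Real.rpow_neg hn0.le, Real.rpow_sub hn0, Real.rpow_one, inv_div]
    · rw [Pool.Agent.N929.EG.card_Y H]
      have hn0 : (2 : ℝ) ≤ n := by exact_mod_cast hn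
      have hna : 1 ≤ (n : ℝ) ^ a := Real.one_le_rpow (by linarith) ha.le
      rcases Nat.eq_zero_or_pos m with rfl | hm0
      · have h1 := Pool.Agent.N929.EG.c_small (m := 0) (by norm_num)
        have h3 : (36 : ℝ) ≤ Real.exp 4 := by
          have h5 : Real.exp 4 = Real.exp 1 ^ 4 := by
            rw [← Real.exp_nat_mul]
            norm_num
          have h6 := Real.exp_one_gt_d9
          have h7 : (2.7 : ℝ) ^ 4 ≤ Real.exp 1 ^ 4 := by
            apply pow_le_pow_left₀ (by norm_num)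
            linarith
          have h8 : (36 : ℝ) ≤ 2.7 ^ 4 := by norm_num
          linarith
        have h4 : Real.exp 4 ≤ Real.exp (K2 * (n : ℝ) ^ a) := Real.exp_le_exp.2 (by nlinarith)
        rw [pow_zero, one_mul]
        exact h1.trans (h3.trans h4)
      · refine le_trans (c_le (h m hm0)) ?_
        refine mul_le_mul_of_nonneg_left (Real.exp_le_exp.2 ?_) (pow_nonneg mu_pos.le m)
        calc K * (m : ℝ) ^ a ≤ |K| * (m : ℝ) ^ a :=
              mul_le_mul_of_nonneg_right (le_abs_self K) (by positivity)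
          _ ≤ |K| * (2 * (n : ℝ) ^ a) := mul_le_mul_of_nonneg_left (hdbl n m hm) (abs_nonneg K)
          _ = 2 * |K| * (n : ℝ) ^ a := by ring
          _ ≤ K2 * (n : ℝ) ^ a := mul_le_mul_of_nonneg_right hKK (by positivity)
  refine Pool.Agent.J4H67.SL.smooth_of_eventually fun r hr => ?_
  obtain ⟨C, hC, h'⟩ := Pool.Agent.N929.EG.cntT Y G' (Pool.Agent.N929.EG.low3 H _) r hr
  refine ⟨C * Real.sqrt K2 ^ r, ?_⟩
  filter_upwards [eventually_ge_atTop 2] with n hn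
  have hn0 : (0 : ℝ) < n := by exact_mod_cast (by omega : 0 < n)
  have h1 := h' n hn
  rw [H.s] at h1
  simp only [Pool.Agent.N929.EG.card_Y H] at h1
  have e1 : Real.sqrt (K2 * (n : ℝ) ^ a / n) = Real.sqrt K2 * (n : ℝ) ^ (-((1 - a) / 2)) := by
    rw [mul_div_assoc, Real.sqrt_mul (by linarith)]
    congr 1
    rw [Real.sqrt_eq_rpow, show (n : ℝ) ^ a / (n : ℝ) = (n : ℝ) ^ (a - 1) by
      rw [Real.rpow_sub hn0, Real.rpow_one], ← Real.rpow_mul hn0.le]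
    congr 1
    ring
  have e2 : Real.sqrt (K2 * (n : ℝ) ^ a / n) ^ r =
      Real.sqrt K2 ^ r * (n : ℝ) ^ (-((1 - a) / 2 * r)) := by
    rw [e1, mul_pow, ← Real.rpow_natCast ((n : ℝ) ^ (-((1 - a) / 2))), ← Real.rpow_mul hn0.le]
    congr 2
    ring
  rw [e2, ← mul_assoc] at h1
  exact h1

theorem all_of_ev {L : ℕ → ℝ} {b C : ℝ} (hb : 0 ≤ b)
    (h : ∀ᶠ n : ℕ in atTop, L n ≤ C * (n : ℝ) ^ b) :
    ∃ K : ℝ, ∀ n : ℕ, 1 ≤ n → L n ≤ K * (n : ℝ) ^ b := by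
  obtain ⟨N, hN⟩ := eventually_atTop.1 h
  refine ⟨|C| + ∑ m ∈ range N, |L m|, fun n hn => ?_⟩
  have hn1 : 1 ≤ (n : ℝ) ^ b := Real.one_le_rpow (by exact_mod_cast hn) hb
  have hs : 0 ≤ ∑ m ∈ range N, |L m| := sum_nonneg fun m _ => abs_nonneg _
  rcases lt_or_ge n N with h1 | h1
  · have h2 : |L n| ≤ ∑ m ∈ range N, |L m| :=
      single_le_sum (f := fun m : ℕ => |L m|) (fun m _ => abs_nonneg _) (mem_range.2 h1)
    have h3 := le_abs_self (L n)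
    have h4 : (|C| + ∑ m ∈ range N, |L m|) * 1 ≤ (|C| + ∑ m ∈ range N, |L m|) * (n : ℝ) ^ b :=
      mul_le_mul_of_nonneg_left hn1 (by positivity)
    linarith [abs_nonneg C]
  · refine (hN n h1).trans (mul_le_mul_of_nonneg_right ?_ (by positivity))
    linarith [le_abs_self C]

/-- one step of the bootstrap -/
theorem boot_step {a b ε : ℝ} (ha : 0 < a) (ha1 : a < 1) (hb : 0 ≤ b) (hba : b < a) (hε : 0 ≤ ε)
    {S : Set ℕ} (hS : Meets S ((1 - b) / 2 - ε))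
    (hB : ∀ b' : ℝ, b < b' → ∀ᶠ n : ℕ in atTop ⊓ 𝓟 S, LL n ≤ (n : ℝ) ^ b') {K : ℝ}
    (h : ∀ n : ℕ, 1 ≤ n → LL n ≤ K * (n : ℝ) ^ a) :
    ∃ K' : ℝ, ∀ n : ℕ, 1 ≤ n → LL n ≤ K' * (n : ℝ) ^ ((a + b) / 2) := by
  obtain ⟨C, hC0, hC⟩ := Pool.Agent.J4H67.SL.tele (by linarith : 0 ≤ (1 - a) / 2)
    (smooth_of_growth ha ha1 h)
  have h1 := hB ((a + b) / 2) (by linarith)
  rw [eventually_inf_principal, eventually_atTop] at h1
  obtain ⟨N, hN⟩ := h1
  refine all_of_ev (C := 2 ^ ((a + b) / 2) + C) (by linarith) ?_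
  filter_upwards [hS, eventually_ge_atTop (max N 1)] with n h2 hn
  obtain ⟨s, hs, hns, hsn, hsp⟩ := h2
  have hnN : N ≤ n := (le_max_left _ _).trans hn
  have hn1 : 1 ≤ n := (le_max_right _ _).trans hn
  have hn1' : (1 : ℝ) ≤ n := by exact_mod_cast hn1
  have hn0 : (0 : ℝ) < n := by linarith
  have h3 := hC n hn1 ((s - n) / 2)
  rw [show n + 2 * ((s - n) / 2) = s by omega] at h3
  have hρ : (n : ℝ) ^ ((1 - b) / 2 - ε) ≤ (n : ℝ) ^ ((1 - b) / 2) :=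
    Real.rpow_le_rpow_of_exponent_le hn1' (by linarith)
  have h4 : (((s - n) / 2 : ℕ) : ℝ) ≤ (n : ℝ) ^ ((1 - b) / 2) := by
    have h5 : (((s - n) / 2 : ℕ) : ℝ) ≤ ((s - n : ℕ) : ℝ) := by
      exact_mod_cast Nat.div_le_self _ _
    rw [Nat.cast_sub hns] at h5
    linarith
  have h6 : |LL s - LL n| ≤ C * (n : ℝ) ^ ((a + b) / 2) :=
    calc |LL s - LL n| ≤ (((s - n) / 2 : ℕ) : ℝ) * (C * (n : ℝ) ^ (-((1 - a) / 2))) := h3
      _ ≤ (n : ℝ) ^ ((1 - b) / 2) * (C * (n : ℝ) ^ (-((1 - a) / 2))) :=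
        mul_le_mul_of_nonneg_right h4 (by positivity)
      _ = C * (n : ℝ) ^ ((a - b) / 2) := by
        rw [mul_left_comm, ← Real.rpow_add hn0]
        congr 2
        ring
      _ ≤ C * (n : ℝ) ^ ((a + b) / 2) :=
        mul_le_mul_of_nonneg_left (Real.rpow_le_rpow_of_exponent_le hn1' (by linarith)) hC0
  have h7 := hN s (hnN.trans hns) hs
  have h8 : (s : ℝ) ^ ((a + b) / 2) ≤ 2 ^ ((a + b) / 2) * (n : ℝ) ^ ((a + b) / 2) := by
    rw [← Real.mul_rpow (by norm_num) hn0.le]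
    refine Real.rpow_le_rpow (Nat.cast_nonneg s) ?_ (by linarith)
    have h9 : (n : ℝ) ^ ((1 - b) / 2) ≤ n := by
      conv_rhs => rw [← Real.rpow_one (n : ℝ)]
      exact Real.rpow_le_rpow_of_exponent_le hn1' (by linarith)
    linarith
  have h10 := (abs_le.1 h6).1
  rw [add_mul]
  linarith

/-- the bootstrap -/
theorem boot {b ε : ℝ} (hb : 0 ≤ b) (hb1 : b < 1 / 2) (hε : 0 ≤ ε) {S : Set ℕ}
    (hS : Meets S ((1 - b) / 2 - ε))
    (hB : ∀ b' : ℝ, b < b' → ∀ᶠ n : ℕ in atTop ⊓ 𝓟 S, LL n ≤ (n : ℝ) ^ b') (k : ℕ) :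
    ∃ K : ℝ, ∀ n : ℕ, 1 ≤ n → LL n ≤ K * (n : ℝ) ^ (b + (1 / 2 - b) / 2 ^ k) := by
  induction k with
  | zero =>
    obtain ⟨K, hK⟩ := Pool.Agent.W325.S3.c_third (1 / 6) (by norm_num)
    refine ⟨K, fun n hn => ?_⟩
    have h1 := hK n
    have h2 : (Pool.Agent.H46R2.K3.c n : ℝ) / Pool.Agent.H46R2.K3.mu ^ n ≤
        Real.exp (K * (n : ℝ) ^ (1 / 3 + 1 / 6 : ℝ)) := by
      rw [div_le_iff₀ (pow_pos mu_pos n), mul_comm]
      exact h1
    have h3 : LL n ≤ K * (n : ℝ) ^ (1 / 3 + 1 / 6 : ℝ) := by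
      unfold LL
      rw [Real.log_le_iff_le_exp (div_pos (c_pos n) (pow_pos mu_pos n))]
      exact h2
    have e : b + (1 / 2 - b) / 2 ^ 0 = (1 / 3 + 1 / 6 : ℝ) := by
      rw [pow_zero]
      ring
    rw [e]
    exact h3
  | succ k ih =>
    obtain ⟨K, hK⟩ := ih
    have h2 : (0 : ℝ) < 2 ^ k := by positivity
    have h1 : (1 : ℝ) ≤ 2 ^ k := one_le_pow₀ (by norm_num)
    have h3 : 0 < (1 / 2 - b) / 2 ^ k := div_pos (by linarith) h2
    have h4 : (1 / 2 - b) / 2 ^ k ≤ 1 / 2 - b := div_le_self (by linarith) h1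
    obtain ⟨K', hK'⟩ := boot_step (a := b + (1 / 2 - b) / 2 ^ k) (by linarith) (by linarith) hb
      (by linarith) hε hS hB hK
    refine ⟨K', fun n hn => ?_⟩
    have h5 := hK' n hn
    have e : (b + (1 / 2 - b) / 2 ^ k + b) / 2 = b + (1 / 2 - b) / 2 ^ (k + 1) := by
      rw [pow_succ]
      field_simp
      ring
    rwa [e] at h5

/-- **Smoothness from an upper bound along a sparse set.** -/
theorem smooth_sparse {b ε : ℝ} (hb : 0 ≤ b) (hb1 : b < 1 / 2) (hε : 0 ≤ ε) {S : Set ℕ}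
    (hS : Meets S ((1 - b) / 2 - ε))
    (hB : ∀ b' : ℝ, b < b' → ∀ᶠ n : ℕ in atTop ⊓ 𝓟 S, LL n ≤ (n : ℝ) ^ b') {κ : ℝ}
    (hκ : κ < (1 - b) / 2) : Smooth κ LL := by
  have h1 : Tendsto (fun k : ℕ => (1 / 2 - b) * (1 / 2 : ℝ) ^ k) atTop (𝓝 ((1 / 2 - b) * 0)) :=
    (tendsto_pow_atTop_nhds_zero_of_lt_one (by norm_num) (by norm_num)).const_mul _
  rw [mul_zero] at h1
  obtain ⟨k, hk⟩ := (h1.eventually (gt_mem_nhds (show 0 < 1 - b - 2 * κ by linarith))).exists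
  have e : (1 / 2 - b) * (1 / 2 : ℝ) ^ k = (1 / 2 - b) / 2 ^ k := by
    rw [one_div, inv_pow]
    ring
  rw [e] at hk
  obtain ⟨K, hK⟩ := boot hb hb1 hε hS hB k
  have h2 : (0 : ℝ) < 2 ^ k := by positivity
  have h3 : 0 < (1 / 2 - b) / 2 ^ k := div_pos (by linarith) h2
  have h4 : (1 / 2 - b) / 2 ^ k ≤ 1 / 2 - b :=
    div_le_self (by linarith) (one_le_pow₀ (by norm_num))
  exact (smooth_of_growth (by linarith) (by linarith) hK).mono (by linarith)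

end Pool.Agent.J4H67.SH
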