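import Pool.Agent.J4H67.SH.Fin

/-!
Self-avoiding walks on `ℤ³`: differences of `log (c_n / μ^n)`.
-/

set_option autoImplicit false

namespace Pool.Agent.J4H67.SH

open Filter Topology Finset
open Pool.Agent.J4H67.SL (dd Smooth Meets window)

theorem upper_of_bigO {S : Set ℕ} {φ : ℕ → ℝ} {D : ℝ} (hD : 0 ≤ D)
    (h : (fun n => LL n - φ n) =O[atTop ⊓ 𝓟 S] fun n : ℕ => (n : ℝ) ^ (-D)) :
    ∃ C : ℝ, ∀ᶠ n : ℕ in atTop ⊓ 𝓟 S, LL n ≤ φ n + C := by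
  obtain ⟨C, hC⟩ := h.bound
  refine ⟨|C|, ?_⟩
  filter_upwards [hC, (eventually_ge_atTop 1).filter_mono
    (inf_le_left : (atTop ⊓ 𝓟 S : Filter ℕ) ≤ atTop)] with n h1 hn
  have hn1 : (1 : ℝ) ≤ n := by exact_mod_cast hn
  rw [Real.norm_eq_abs, Real.norm_of_nonneg (by positivity)] at h1
  have h2 : (n : ℝ) ^ (-D) ≤ 1 := Real.rpow_le_one_of_one_le_of_nonpos hn1 (by linarith)
  have h3 : C * (n : ℝ) ^ (-D) ≤ |C| * 1 :=
    mul_le_mul (le_abs_self C) h2 (by positivity) (abs_nonneg C)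
  have h4 := le_abs_self (LL n - φ n)
  linarith

theorem diff_gen {b ε : ℝ} (hb : 0 ≤ b) (hb1 : b ≤ 1 / 3) (hε : 0 < ε) (hε' : ε ≤ (1 - b) / 2)
    {S : Set ℕ} (hS : Meets S ((1 - b) / 2 - ε)) {φ : ℕ → ℝ} (hφ : Smooth ((1 - b) / 2) φ)
    (hg : b = 1 / 3 ∨ ∀ b' : ℝ, b < b' → ∀ᶠ n : ℕ in atTop ⊓ 𝓟 S, φ n ≤ (n : ℝ) ^ b')
    {D : ℝ} (hD : 0 ≤ D)
    (h : (fun n => LL n - φ n) =O[atTop ⊓ 𝓟 S] fun n : ℕ => (n : ℝ) ^ (-D)) (j : ℕ) {δ : ℝ}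
    (hδ : 0 < δ) :
    (fun n => dd j (fun m => LL m - φ m) n) =O[atTop]
      fun n : ℕ => (n : ℝ) ^ (-D - j * ((1 - b) / 2) + δ) := by
  obtain ⟨C, hC⟩ := upper_of_bigO hD h
  have hL := smooth_LL hb hb1 hε.le hS (growth_of_phi hb hg hC)
  exact diff_gain (by linarith) hL hε hε' hS hφ hD h j hδ

theorem diff_LL {b ε : ℝ} (hb : 0 ≤ b) (hb1 : b ≤ 1 / 3) (hε : 0 < ε)
    {S : Set ℕ} (hS : Meets S ((1 - b) / 2 - ε))
    (h : b = 1 / 3 ∨ ∀ b' : ℝ, b < b' → ∀ᶠ n : ℕ in atTop ⊓ 𝓟 S, LL n ≤ (n : ℝ) ^ b')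
    {j : ℕ} (hj : 1 ≤ j) {δ : ℝ} (hδ : 0 < δ) :
    (fun n => dd j LL n) =O[atTop] fun n : ℕ => (n : ℝ) ^ (-(j * ((1 - b) / 2)) + δ) := by
  have hj0 : (0 : ℝ) < j := by exact_mod_cast hj
  obtain ⟨C, hC⟩ := smooth_LL hb hb1 hε.le hS h ((1 - b) / 2 - δ / j)
    (by have := div_pos hδ hj0; linarith) j hj
  refine Asymptotics.IsBigO.of_bound |C| ?_
  filter_upwards [eventually_ge_atTop 1] with n hn
  rw [Real.norm_eq_abs, Real.norm_of_nonneg (by positivity)]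
  have e : -(((1 - b) / 2 - δ / j) * (j : ℝ)) = -(j * ((1 - b) / 2)) + δ := by
    field_simp
    ring
  have h1 := hC n hn
  rw [e] at h1
  exact h1.trans (mul_le_mul_of_nonneg_right (le_abs_self C) (by positivity))

/-- **the ratio method** -/
theorem ratio_half {ε : ℝ} (hε : 0 < ε) (hε' : ε ≤ 1 / 2) {S : Set ℕ}
    (hS : Meets S (1 / 2 - ε)) {A : ℝ} (hA : 0 < A) (g : ℝ) {D : ℝ} (hD : 1 / 2 < D)
    (h : (fun n : ℕ => uu n / (A * (n : ℝ) ^ g) - 1) =O[atTop ⊓ 𝓟 S]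
      fun n : ℕ => (n : ℝ) ^ (-D)) :
    Tendsto (fun n : ℕ => (n : ℝ) * (uu (n + 2) / uu n - 1)) atTop (𝓝 (2 * g)) := by
  have e : (1 - (0 : ℝ)) / 2 = 1 / 2 := by norm_num
  obtain ⟨C, hC⟩ := h.bound
  have h1 : ∀ᶠ n : ℕ in atTop ⊓ 𝓟 S, uu n ≤ (1 + |C|) * (A * (n : ℝ) ^ g) := by
    filter_upwards [hC, (eventually_ge_atTop 1).filter_mono
      (inf_le_left : (atTop ⊓ 𝓟 S : Filter ℕ) ≤ atTop)] with n h1 hn
    have hn0 : (0 : ℝ) < n := by exact_mod_cast hn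
    have hn1 : (1 : ℝ) ≤ n := by exact_mod_cast hn
    rw [Real.norm_eq_abs, Real.norm_of_nonneg (by positivity)] at h1
    have h2 : (n : ℝ) ^ (-D) ≤ 1 := Real.rpow_le_one_of_one_le_of_nonpos hn1 (by linarith)
    have h3 : C * (n : ℝ) ^ (-D) ≤ |C| * 1 :=
      mul_le_mul (le_abs_self C) h2 (by positivity) (abs_nonneg C)
    have h4 := le_abs_self (uu n / (A * (n : ℝ) ^ g) - 1)
    rw [← div_le_iff₀ (by positivity)]
    linarith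
  have hL : ∀ κ : ℝ, κ < 1 / 2 → Smooth κ (fun n => Real.log (uu n)) := fun κ hκ =>
    smooth_LL (b := 0) (ε := ε) le_rfl (by norm_num) hε.le (by rw [e]; exact hS)
      (Or.inr (growth_pow hA h1)) κ (by rw [e]; exact hκ)
  exact ratio_lim (by norm_num) uu_pos hL hε hε' hS hA g (by linarith) h

end Pool.Agent.J4H67.SH
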