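import Pool.Agent.J4H67.SH.Fin

/-!
Self-avoiding walks on `ℤ³`: the law from iterated sums.
-/

set_option autoImplicit false

namespace Pool.Agent.J4H67.SH

open Filter Topology Finset
open Pool.Agent.J4H67.SL (dd Smooth Meets window)

/-- difference with step `2 h` -/
def Dh (h : ℕ) (f : ℕ → ℝ) (n : ℕ) : ℝ := f (n + 2 * h) - f n

/-- sum over a window -/
def Th (h : ℕ) (f : ℕ → ℝ) (n : ℕ) : ℝ := ∑ i ∈ range h, f (n + 2 * i)

theorem Dh_eq (h : ℕ) (f : ℕ → ℝ) : Dh h f = Th h (Dh 1 f) := by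
  funext n
  simp only [Dh, Th]
  induction h with
  | zero => simp
  | succ h ih =>
    rw [sum_range_succ, ← ih]
    ring_nf

theorem comm (h : ℕ) : Function.Commute (Th h) (Dh 1) := by
  intro f
  funext n
  simp only [Dh, Th]
  rw [← sum_sub_distrib]
  refine sum_congr rfl fun i _ => ?_
  rw [show n + 2 * 1 + 2 * i = n + 2 * i + 2 * 1 by ring]

theorem Dh_iter (h k : ℕ) (f : ℕ → ℝ) : (Dh h)^[k] f = (Th h)^[k] ((Dh 1)^[k] f) := by
  have e : Dh h = Th h ∘ Dh 1 := by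
    funext f
    exact Dh_eq h f
  rw [e, (comm h).comp_iterate]
  rfl

theorem Dh_bd (h : ℕ) (k : ℕ) : ∀ (f : ℕ → ℝ) (n : ℕ) (X : ℝ),
    (∀ j ≤ k, |f (n + 2 * h * j)| ≤ X) → |(Dh h)^[k] f n| ≤ 2 ^ k * X := by
  induction k with
  | zero =>
    intro f n X hX
    simpa using hX 0 le_rfl
  | succ k ih =>
    intro f n X hX
    rw [Function.iterate_succ, Function.comp]
    have h1 := ih (Dh h f) n (2 * X) (fun j hj => by
      have h2 := hX j (by omega)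
      have h3 := hX (j + 1) (by omega)
      have e : n + 2 * h * (j + 1) = n + 2 * h * j + 2 * h := by ring
      rw [e] at h3
      unfold Dh
      refine (abs_sub _ _).trans ?_
      linarith)
    rw [pow_succ]
    linarith

theorem Th_pig {h : ℕ} (hh : 1 ≤ h) (k : ℕ) : ∀ (f : ℕ → ℝ) (n : ℕ) (X : ℝ),
    (Th h)^[k] f n ≤ X → ∃ j ≤ k * h, f (n + 2 * j) ≤ X / h ^ k := by
  have hh0 : (0 : ℝ) < h := by exact_mod_cast hh
  induction k with
  | zero =>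
    intro f n X hX
    exact ⟨0, by omega, by simpa using hX⟩
  | succ k ih =>
    intro f n X hX
    rw [Function.iterate_succ, Function.comp] at hX
    obtain ⟨j, hj, h1⟩ := ih (Th h f) n X hX
    obtain ⟨i, hi, h2⟩ : ∃ i ∈ range h, f (n + 2 * j + 2 * i) ≤ X / h ^ k / h := by
      by_contra hcon
      push Not at hcon
      have h3 : ∑ i ∈ range h, X / (h : ℝ) ^ k / h < ∑ i ∈ range h, f (n + 2 * j + 2 * i) :=
        sum_lt_sum_of_nonempty ⟨0, mem_range.2 hh⟩ hcon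
      rw [sum_const, card_range, nsmul_eq_mul, mul_div_cancel₀ _ hh0.ne'] at h3
      exact absurd h1 (not_le.2 h3)
    have hi' := mem_range.1 hi
    refine ⟨j + i, by rw [add_mul, one_mul]; omega, ?_⟩
    rw [show n + 2 * (j + i) = n + 2 * j + 2 * i by ring, pow_succ, ← div_div]
    exact h2

theorem Th_neg (h k : ℕ) (f : ℕ → ℝ) (n : ℕ) :
    (Th h)^[k] (fun m => -f m) n = -(Th h)^[k] f n := by
  have h1 : ∀ f : ℕ → ℝ, Th h (fun m => -f m) = fun m => -Th h f m := fun f => by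
    funext n
    simp [Th]
  induction k generalizing f with
  | zero => rfl
  | succ k ih =>
    rw [Function.iterate_succ, Function.comp, h1, ih]
    rfl

theorem cmp {N m e : ℝ} (hN : 0 < N) (h1 : N ≤ m) (h2 : m ≤ 2 * N) :
    m ^ e ≤ 2 ^ |e| * N ^ e ∧ N ^ e ≤ 2 ^ |e| * m ^ e := by
  have hm : 0 < m := by linarith
  have h2e : (1 : ℝ) ≤ 2 ^ |e| := Real.one_le_rpow (by norm_num) (abs_nonneg e)
  rcases le_or_gt 0 e with he | he
  · rw [abs_of_nonneg he] at h2e ⊢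
    refine ⟨?_, ?_⟩
    · rw [← Real.mul_rpow (by norm_num) hN.le]
      exact Real.rpow_le_rpow hm.le h2 he
    · calc N ^ e ≤ m ^ e := Real.rpow_le_rpow hN.le h1 he
        _ ≤ 2 ^ e * m ^ e := le_mul_of_one_le_left (by positivity) h2e
  · refine ⟨?_, ?_⟩
    · calc m ^ e ≤ N ^ e := Real.rpow_le_rpow_of_nonpos hN h1 he.le
        _ ≤ 2 ^ |e| * N ^ e := le_mul_of_one_le_left (by positivity) h2e
    · have h3 : N ^ e ≤ (m / 2) ^ e :=
        Real.rpow_le_rpow_of_nonpos (by positivity) (by linarith) he.le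
      refine h3.trans (le_of_eq ?_)
      rw [abs_of_neg he, Real.div_rpow hm.le (by norm_num), Real.rpow_neg (by norm_num)]
      field_simp

/-- a `k`-fold difference of a small sequence is small at some point of each window -/
theorem pig_meets (k : ℕ) {ρ : ℝ} (hρ0 : 0 < ρ) (hρ1 : ρ ≤ 1) {e : ℝ} {F : ℕ → ℝ}
    (hF : F =O[atTop] fun n : ℕ => (n : ℝ) ^ e) :
    ∃ C : ℝ, Meets {m : ℕ | (Dh 1)^[k] F m ≤ C * (m : ℝ) ^ (e - ρ * k)} ρ := by
  obtain ⟨C0, hC0⟩ := hF.bound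
  obtain ⟨N0, hN0⟩ := eventually_atTop.1 hC0
  have hK : (0 : ℝ) < (k : ℝ) + 1 := by positivity
  have ht : Tendsto (fun n : ℕ => (n : ℝ) ^ ρ) atTop atTop :=
    (tendsto_rpow_atTop hρ0).comp (tendsto_natCast_atTop_atTop (R := ℝ))
  refine ⟨2 ^ |e - ρ * k| * (2 ^ k * (|C0| * 2 ^ |e|) * (4 * ((k : ℝ) + 1)) ^ k), ?_⟩
  filter_upwards [ht.eventually_ge_atTop (4 * ((k : ℝ) + 1)), eventually_ge_atTop (max N0 1)]
    with N h1 hN
  have hNN0 : N0 ≤ N := (le_max_left _ _).trans hN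
  have hN1 : 1 ≤ N := (le_max_right _ _).trans hN
  have hN1' : (1 : ℝ) ≤ N := by exact_mod_cast hN1
  have hNpos : (0 : ℝ) < N := by linarith
  have hNρ : (N : ℝ) ^ ρ ≤ N := by
    conv_rhs => rw [← Real.rpow_one (N : ℝ)]
    exact Real.rpow_le_rpow_of_exponent_le hN1' hρ1
  obtain ⟨h, hh⟩ : ∃ h : ℕ, h = ⌊(N : ℝ) ^ ρ / (2 * ((k : ℝ) + 1))⌋₊ := ⟨_, rfl⟩
  have hle : (h : ℝ) ≤ (N : ℝ) ^ ρ / (2 * ((k : ℝ) + 1)) := by
    rw [hh]
    exact Nat.floor_le (by positivity)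
  have hlt : (N : ℝ) ^ ρ / (2 * ((k : ℝ) + 1)) < h + 1 := by
    rw [hh]
    exact Nat.lt_floor_add_one _
  have hge : (N : ℝ) ^ ρ / (4 * ((k : ℝ) + 1)) ≤ h := by
    have e1 : (N : ℝ) ^ ρ / (2 * ((k : ℝ) + 1)) = 2 * ((N : ℝ) ^ ρ / (4 * ((k : ℝ) + 1))) := by
      field_simp
      norm_num
    have e2 : 1 ≤ (N : ℝ) ^ ρ / (4 * ((k : ℝ) + 1)) := by
      rw [le_div_iff₀ (by positivity)]
      linarith
    linarith
  have hh1 : 1 ≤ h := by
    have e2 : 1 ≤ (N : ℝ) ^ ρ / (4 * ((k : ℝ) + 1)) := by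
      rw [le_div_iff₀ (by positivity)]
      linarith
    exact_mod_cast e2.trans hge
  have hkh : 2 * ((k : ℝ) * h) ≤ (N : ℝ) ^ ρ := by
    rw [le_div_iff₀ (by positivity)] at hle
    have : (0 : ℝ) ≤ h := Nat.cast_nonneg h
    nlinarith
  have hbd : ∀ j ≤ k, |F (N + 2 * h * j)| ≤ |C0| * 2 ^ |e| * (N : ℝ) ^ e := by
    intro j hj
    have hj' : (j : ℝ) ≤ k := by exact_mod_cast hj
    have h3 := hN0 (N + 2 * h * j) (by omega)
    rw [Real.norm_eq_abs, Real.norm_of_nonneg (by positivity)] at h3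
    have hcast : ((N + 2 * h * j : ℕ) : ℝ) = N + 2 * h * j := by push_cast; ring
    have h4 : ((N + 2 * h * j : ℕ) : ℝ) ≤ 2 * N := by
      rw [hcast]
      have : (h : ℝ) * j ≤ k * h := by
        rw [mul_comm]
        exact mul_le_mul_of_nonneg_right hj' (Nat.cast_nonneg h)
      nlinarith
    have h5 := (cmp (e := e) hNpos (show (N : ℝ) ≤ ((N + 2 * h * j : ℕ) : ℝ) by
      exact_mod_cast (by omega : N ≤ N + 2 * h * j)) h4).1
    calc |F (N + 2 * h * j)| ≤ C0 * ((N + 2 * h * j : ℕ) : ℝ) ^ e := h3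
      _ ≤ |C0| * ((N + 2 * h * j : ℕ) : ℝ) ^ e :=
        mul_le_mul_of_nonneg_right (le_abs_self C0) (by positivity)
      _ ≤ |C0| * (2 ^ |e| * (N : ℝ) ^ e) := mul_le_mul_of_nonneg_left h5 (abs_nonneg C0)
      _ = _ := by ring
  have h6 := Dh_bd h k F N _ hbd
  rw [Dh_iter] at h6
  obtain ⟨j, hj, h7⟩ := Th_pig hh1 k ((Dh 1)^[k] F) N _ ((le_abs_self _).trans h6)
  have hj' : (j : ℝ) ≤ k * h := by exact_mod_cast hj
  have hm1 : (N : ℝ) ≤ ((N + 2 * j : ℕ) : ℝ) := by exact_mod_cast (by omega : N ≤ N + 2 * j)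
  have hm2 : ((N + 2 * j : ℕ) : ℝ) ≤ N + (N : ℝ) ^ ρ := by
    push_cast
    linarith
  refine ⟨N + 2 * j, ?_, by omega, hm2, by omega⟩
  show (Dh 1)^[k] F (N + 2 * j) ≤ _
  refine h7.trans ?_
  have h8 := (cmp (e := e - ρ * k) hNpos hm1 (by linarith)).2
  have h9 : (N : ℝ) ^ (ρ * k) / (4 * ((k : ℝ) + 1)) ^ k ≤ (h : ℝ) ^ k := by
    rw [Real.rpow_mul hNpos.le, Real.rpow_natCast, ← div_pow]
    exact pow_le_pow_left₀ (by positivity) hge k
  have hp : 0 < (N : ℝ) ^ (ρ * k) / (4 * ((k : ℝ) + 1)) ^ k := by positivity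
  calc 2 ^ k * (|C0| * 2 ^ |e| * (N : ℝ) ^ e) / (h : ℝ) ^ k
      ≤ 2 ^ k * (|C0| * 2 ^ |e| * (N : ℝ) ^ e) /
        ((N : ℝ) ^ (ρ * k) / (4 * ((k : ℝ) + 1)) ^ k) :=
        div_le_div_of_nonneg_left (by positivity) hp h9
    _ = 2 ^ k * (|C0| * 2 ^ |e|) * (4 * ((k : ℝ) + 1)) ^ k * (N : ℝ) ^ (e - ρ * k) := by
        rw [Real.rpow_sub hNpos]
        field_simp
    _ ≤ 2 ^ k * (|C0| * 2 ^ |e|) * (4 * ((k : ℝ) + 1)) ^ k *
        (2 ^ |e - ρ * k| * ((N + 2 * j : ℕ) : ℝ) ^ (e - ρ * k)) :=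
        mul_le_mul_of_nonneg_left h8 (by positivity)
    _ = _ := by ring

theorem Dh_neg (k : ℕ) (F : ℕ → ℝ) (n : ℕ) :
    (Dh 1)^[k] (fun m => -F m) n = -(Dh 1)^[k] F n := by
  have h1 : ∀ f : ℕ → ℝ, Dh 1 (fun m => -f m) = fun m => -Dh 1 f m := fun f => by
    funext n
    simp only [Dh]
    ring
  induction k generalizing F with
  | zero => rfl
  | succ k ih =>
    rw [Function.iterate_succ, Function.comp, h1, ih]
    rfl

/-- **The law from iterated sums.** -/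
theorem sum_law {k : ℕ} {A : ℝ} (hA : 0 < A) (g : ℝ) {D : ℝ} (hD : (k : ℝ) / 2 < D) {F : ℕ → ℝ}
    (hF : F =O[atTop] fun n : ℕ => (n : ℝ) ^ (g + k - D))
    (hf : ∀ᶠ n : ℕ in atTop, (Dh 1)^[k] F n = uu n - A * (n : ℝ) ^ g) {δ : ℝ} (hδ : 0 < δ) :
    (fun n : ℕ => uu n / (A * (n : ℝ) ^ g) - 1) =O[atTop]
      fun n : ℕ => (n : ℝ) ^ (-(D - k / 2) + δ) := by
  obtain ⟨ε, hε0, hε1, hε2, hε3⟩ : ∃ ε : ℝ, 0 < ε ∧ ε ≤ 1 / 4 ∧ k * ε ≤ δ ∧
      k * ε < D - k / 2 := by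
    have hk0 : (0 : ℝ) < (k : ℝ) + 1 := by positivity
    refine ⟨min (1 / 4) (min (δ / (k + 1)) ((D - k / 2) / (2 * (k + 1)))), ?_, min_le_left _ _,
      ?_, ?_⟩
    · refine lt_min (by norm_num) (lt_min (by positivity) (div_pos (by linarith) (by positivity)))
    · have h1 : min (1 / 4) (min (δ / ((k : ℝ) + 1)) ((D - k / 2) / (2 * (k + 1)))) ≤
          δ / ((k : ℝ) + 1) := (min_le_right _ _).trans (min_le_left _ _)
      have h2 : (k : ℝ) * (δ / ((k : ℝ) + 1)) ≤ δ := by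
        rw [← mul_div_assoc, div_le_iff₀ hk0]
        nlinarith
      exact (mul_le_mul_of_nonneg_left h1 (Nat.cast_nonneg k)).trans h2
    · have h1 : min (1 / 4) (min (δ / ((k : ℝ) + 1)) ((D - k / 2) / (2 * (k + 1)))) ≤
          (D - k / 2) / (2 * ((k : ℝ) + 1)) := (min_le_right _ _).trans (min_le_right _ _)
      have h3 : 0 < D - (k : ℝ) / 2 := by linarith
      have h2 : (k : ℝ) * ((D - k / 2) / (2 * ((k : ℝ) + 1))) < D - k / 2 := by
        rw [← mul_div_assoc, div_lt_iff₀ (by positivity)]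
        nlinarith
      exact (mul_le_mul_of_nonneg_left h1 (Nat.cast_nonneg k)).trans_lt h2
  obtain ⟨D', hD'⟩ : ∃ D' : ℝ, D' = D - k / 2 - k * ε := ⟨_, rfl⟩
  have hD'0 : 0 < D' := by rw [hD']; linarith
  have hexp : g + k - D - (1 / 2 - ε) * k = -D' + g := by rw [hD']; ring
  -- the two sets
  have key : ∀ G : ℕ → ℝ, G =O[atTop] (fun n : ℕ => (n : ℝ) ^ (g + k - D)) →
      ∃ C : ℝ, Meets {m : ℕ | (Dh 1)^[k] G m ≤ C * (m : ℝ) ^ (-D') * (A * (m : ℝ) ^ g)}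
        (1 / 2 - ε) := by
    intro G hG
    obtain ⟨C, hC⟩ := pig_meets k (show (0 : ℝ) < 1 / 2 - ε by linarith) (by linarith) hG
    refine ⟨C / A, ?_⟩
    filter_upwards [hC, eventually_ge_atTop 1] with n h1 hn
    obtain ⟨s, hs, hns, hsn, hsp⟩ := h1
    refine ⟨s, ?_, hns, hsn, hsp⟩
    have hs0 : (0 : ℝ) < s := by exact_mod_cast (by omega : 0 < s)
    have hs' : (Dh 1)^[k] G s ≤ C * (s : ℝ) ^ (g + k - D - (1 / 2 - ε) * k) := hs
    show (Dh 1)^[k] G s ≤ C / A * (s : ℝ) ^ (-D') * (A * (s : ℝ) ^ g)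
    rw [hexp, Real.rpow_add hs0] at hs'
    refine hs'.trans (le_of_eq ?_)
    field_simp
  obtain ⟨C₁, h1⟩ := key F hF
  obtain ⟨C₂, h2⟩ := key (fun m => -F m) hF.neg_left
  obtain ⟨N, hN⟩ := eventually_atTop.1 hf
  have hup : Meets {m : ℕ | N ≤ m ∧ uu m ≤ (1 + C₁ * (m : ℝ) ^ (-D')) * (A * (m : ℝ) ^ g)}
      (1 / 2 - ε) := by
    filter_upwards [h1, eventually_ge_atTop N] with n h3 hn
    obtain ⟨s, hs, hns, hsn, hsp⟩ := h3
    refine ⟨s, ⟨by omega, ?_⟩, hns, hsn, hsp⟩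
    have hs' : (Dh 1)^[k] F s ≤ C₁ * (s : ℝ) ^ (-D') * (A * (s : ℝ) ^ g) := hs
    rw [hN s (by omega)] at hs'
    linarith
  have hlo : Meets {m : ℕ | N ≤ m ∧ (1 - C₂ * (m : ℝ) ^ (-D')) * (A * (m : ℝ) ^ g) ≤ uu m}
      (1 / 2 - ε) := by
    filter_upwards [h2, eventually_ge_atTop N] with n h3 hn
    obtain ⟨s, hs, hns, hsn, hsp⟩ := h3
    refine ⟨s, ⟨by omega, ?_⟩, hns, hsn, hsp⟩
    have hs' : (Dh 1)^[k] (fun m => -F m) s ≤ C₂ * (s : ℝ) ^ (-D') * (A * (s : ℝ) ^ g) := hs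
    rw [Dh_neg, hN s (by omega)] at hs'
    linarith
  have h3 := (inter_power hε0 (by linarith) hup hlo hA g).2 D' hD'0
    ⟨C₁, eventually_inf_principal.2 (Eventually.of_forall fun m hm => hm.2)⟩
    ⟨C₂, eventually_inf_principal.2 (Eventually.of_forall fun m hm => hm.2)⟩
  refine h3.trans ?_
  refine Asymptotics.IsBigO.of_bound 1 ?_
  filter_upwards [eventually_ge_atTop 1] with n hn
  have hn1 : (1 : ℝ) ≤ n := by exact_mod_cast hn
  rw [Real.norm_of_nonneg (by positivity), Real.norm_of_nonneg (by positivity), one_mul]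
  exact Real.rpow_le_rpow_of_exponent_le hn1 (by rw [hD']; linarith)

end Pool.Agent.J4H67.SH
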